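import Mathlib
import Pool.Agent.H21.Groth3
import Pool.Agent.H21.Groth5

set_option autoImplicit false

open Matrix
open scoped InnerProductSpace ComplexOrder

namespace Pool.Agent.Results.MP_aeebd3_an.No

/-- `sup {|∑ a_ij p_i q_j| : |p_i| = |q_j| = 1}`. -/
noncomputable def supB {𝕜 : Type} [RCLike 𝕜] {m n : ℕ} (A : Matrix (Fin m) (Fin n) 𝕜) : ℝ :=
  sSup {r | ∃ (p : Fin m → 𝕜) (q : Fin n → 𝕜), (∀ i, ‖p i‖ = 1) ∧ (∀ j, ‖q j‖ = 1) ∧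
    r = ‖∑ i, ∑ j, A i j * p i * q j‖}

/-- Grothendieck's inequality over `𝕜` holds with the constant `K`. -/
def GI (𝕜 : Type) [RCLike 𝕜] (K : ℝ) : Prop :=
  ∀ (m n : ℕ) (A : Matrix (Fin m) (Fin n) 𝕜) (H : Type) [NormedAddCommGroup H]
    [InnerProductSpace 𝕜 H] [CompleteSpace H] (u : Fin m → H) (v : Fin n → H),
    (∀ i, ‖u i‖ = 1) → (∀ j, ‖v j‖ = 1) → ‖∑ i, ∑ j, A i j * ⟪u i, v j⟫_𝕜‖ ≤ K * supB A

/-- The Grothendieck constant of `𝕜`. -/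
noncomputable def KG (𝕜 : Type) [RCLike 𝕜] : ℝ := sInf {K | 0 < K ∧ GI 𝕜 K}

/-- Correlation matrices: positive semidefinite (Hermitian), with unit diagonal. -/
def IsCorr {𝕜 : Type} [RCLike 𝕜] {k : ℕ} (S : Matrix (Fin k) (Fin k) 𝕜) : Prop :=
  S.PosSemidef ∧ ∀ i, S i i = 1

/-- `max {|tr (B* Θ)| : Θ = x x*, |x_i| = 1}`. -/
noncomputable def max1 {𝕜 : Type} [RCLike 𝕜] {k : ℕ} (B : Matrix (Fin k) (Fin k) 𝕜) : ℝ :=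
  sSup {r | ∃ x : Fin k → 𝕜, (∀ i, ‖x i‖ = 1) ∧ r = ‖(Bᴴ * vecMulVec x (star x)).trace‖}

/-- The negated form of the question over `𝕜` (together with: some `K > 0` satisfies
Grothendieck's inequality, so that `KG 𝕜` is the infimum of a nonempty set). -/
def Neg (𝕜 : Type) [RCLike 𝕜] : Prop :=
  (∃ K, 0 < K ∧ GI 𝕜 K) ∧
    ∃ (k : ℕ) (S B : Matrix (Fin k) (Fin k) 𝕜), IsCorr S ∧ KG 𝕜 * max1 B < ‖(Bᴴ * S).trace‖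

lemma le_supB {𝕜 : Type} [RCLike 𝕜] {m n : ℕ} (A : Matrix (Fin m) (Fin n) 𝕜) (p : Fin m → 𝕜)
    (q : Fin n → 𝕜) (hp : ∀ i, ‖p i‖ = 1) (hq : ∀ j, ‖q j‖ = 1) :
    ‖∑ i, ∑ j, A i j * p i * q j‖ ≤ supB A := by
  refine le_csSup ⟨∑ i, ∑ j, ‖A i j‖, ?_⟩ ⟨p, q, hp, hq, rfl⟩
  rintro r ⟨p, q, hp, hq, rfl⟩
  refine (norm_sum_le _ _).trans (Finset.sum_le_sum fun i _ => (norm_sum_le _ _).trans
    (Finset.sum_le_sum fun j _ => ?_))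
  simp [hp, hq]

lemma neg_of {𝕜 : Type} [RCLike 𝕜] (K : ℝ) (hK : 0 < K) (h : GI 𝕜 K)
    (hex : ∃ (k : ℕ) (Sg B : Matrix (Fin k) (Fin k) 𝕜) (b : ℝ), 0 ≤ b ∧
      Sg.PosSemidef ∧ (∀ i, Sg i i = 1) ∧
      (∀ x : Fin k → 𝕜, (∀ i, ‖x i‖ = 1) → ‖(Bᴴ * vecMulVec x (star x)).trace‖ ≤ b) ∧
      K * b < ‖(Bᴴ * Sg).trace‖) : Neg 𝕜 := by
  obtain ⟨k, S, B, b, hb, h1, h2, h3, h4⟩ := hex
  refine ⟨⟨K, hK, h⟩, k, S, B, ⟨h1, h2⟩, lt_of_le_of_lt ?_ h4⟩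
  have a1 : KG 𝕜 ≤ K := csInf_le ⟨0, fun x hx => hx.1.le⟩ ⟨hK, h⟩
  have a2 : max1 B ≤ b := Real.sSup_le (by rintro r ⟨x, hx, rfl⟩; exact h3 x hx) hb
  have a3 : 0 ≤ max1 B := Real.sSup_nonneg (by rintro r ⟨x, hx, rfl⟩; exact norm_nonneg _)
  exact mul_le_mul a1 a2 a3 hK.le

open Pool.Agent.H21.Groth in
theorem result : Neg ℝ ∧ Neg ℂ := by
  have := Real.pi_pos
  exact ⟨neg_of _ (by positivity) (fun m n A H _ _ _ u v hu hv =>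
      boundR u v hu hv A _ (le_supB A)) exR,
    neg_of _ (by positivity) (fun m n A H _ _ _ u v hu hv =>
      boundC u v hu hv A _ (le_supB A)) exC⟩

end Pool.Agent.Results.MP_aeebd3_an.No
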